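import Mathlib
import Pool.Agent.H.MP_5382b1_gt.B

set_option autoImplicit false

namespace Pool.Agent.H.MP_999952_gt

open Set Filter Topology Cardinal MeasureTheory Pool.Agent.H.MP_5382b1_gt

noncomputable def μ : Measure V := Measure.addHaarMeasure ⊤

instance : μ.IsAddHaarMeasure := by unfold μ; infer_instance

instance : IsProbabilityMeasure μ := ⟨by
  have := Measure.addHaarMeasure_self (G := V) (K₀ := ⊤)
  simpa [μ] using this⟩

instance : μ.InnerRegularCompactLTTop := by unfold μ; infer_instance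

theorem z01 : ∀ a : ZMod 2, a ≠ 1 → a = 0 := by decide

theorem pos_split {Q : Set V} (hQ : μ Q ≠ 0) (D : Set V) : μ (Q ∩ D) ≠ 0 ∨ μ (Q \ D) ≠ 0 := by
  by_contra h
  push Not at h
  exact hQ (by rw [← inter_union_sdiff Q D]; exact measure_union_null h.1 h.2)

theorem sep1 (φ : V → V) (hφ : Measurable φ) (h0 : ∀ y, μ (φ ⁻¹' {y}) = 0) (Q R : Set V)
    (hQ : MeasurableSet Q ∧ μ Q ≠ 0) (hR : MeasurableSet R ∧ μ R ≠ 0) :
    ∃ Q' ⊆ Q, ∃ R' ⊆ R, (MeasurableSet Q' ∧ μ Q' ≠ 0) ∧ (MeasurableSet R' ∧ μ R' ≠ 0) ∧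
      ∀ x ∈ Q', ∀ y ∈ R', φ x ≠ φ y := by
  classical
  have hm : ∀ n, MeasurableSet {x | φ x n = 1} := fun n =>
    ((measurable_pi_apply n).comp hφ) (measurableSet_singleton 1)
  obtain ⟨n, h1, h2⟩ : ∃ n, μ (Q ∩ {x | φ x n = 1}) ≠ 0 ∧ μ (Q \ {x | φ x n = 1}) ≠ 0 := by
    by_contra h
    push Not at h
    let c : V := fun n => if μ (Q ∩ {x | φ x n = 1}) = 0 then 0 else 1
    have h3 : ∀ n, μ (Q ∩ {x | φ x n ≠ c n}) = 0 := by
      intro n
      by_cases h4 : μ (Q ∩ {x | φ x n = 1}) = 0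
      · refine measure_mono_null (inter_subset_inter_right _ fun x hx => ?_) h4
        simp only [c, if_pos h4, mem_ofPred_eq] at hx
        by_contra h5
        exact hx (z01 _ h5)
      · simp only [c, if_neg h4]
        exact h n h4
    refine hQ.2 (measure_mono_null (fun x hx => ?_)
      (measure_union_null (h0 c) (measure_iUnion_null h3)))
    by_cases h5 : φ x = c
    · exact Or.inl h5
    · obtain ⟨n, hn⟩ := Function.ne_iff.1 h5
      exact Or.inr (mem_iUnion.2 ⟨n, hx, hn⟩)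
  rcases pos_split hR.2 {x | φ x n = 1} with h3 | h3
  · exact ⟨_, sdiff_subset, _, inter_subset_left, ⟨hQ.1.diff (hm n), h2⟩,
      ⟨hR.1.inter (hm n), h3⟩, fun x hx y hy h => hx.2 (by rw [mem_ofPred_eq, h]; exact hy.2)⟩
  · exact ⟨_, inter_subset_left, _, sdiff_subset, ⟨hQ.1.inter (hm n), h1⟩,
      ⟨hR.1.diff (hm n), h3⟩, fun x hx y hy h => hy.2 (by rw [mem_ofPred_eq, ← h]; exact hx.2)⟩

theorem avoid (φ : ℕ → V → V) (hφ : ∀ i, Measurable (φ i)) (h0 : ∀ i y, μ (φ i ⁻¹' {y}) = 0)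
    (Q : Set V) (hQ : MeasurableSet Q ∧ μ Q ≠ 0) (B : Set V) (hB : #B < 𝔠) :
    ∃ x ∈ Q, ∀ i, φ i x ∉ B := by
  classical
  have h1 : ∀ (n : ℕ) (Q : Set V), MeasurableSet Q ∧ μ Q ≠ 0 → ∃ Q' ⊆ Q, ∃ R' ⊆ Q,
      (MeasurableSet Q' ∧ μ Q' ≠ 0) ∧ (MeasurableSet R' ∧ μ R' ≠ 0) ∧
      ∀ i < n, ∀ x ∈ Q', ∀ y ∈ R', φ i x ≠ φ i y := by
    intro n Q hQ
    induction n with
    | zero => exact ⟨Q, subset_rfl, Q, subset_rfl, hQ, hQ, by simp⟩
    | succ n ih =>
      obtain ⟨Q', k1, R', k2, k3, k4, k5⟩ := ih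
      obtain ⟨Q'', l1, R'', l2, l3, l4, l5⟩ := sep1 (φ n) (hφ n) (h0 n) Q' R' k3 k4
      refine ⟨Q'', l1.trans k1, R'', l2.trans k2, l3, l4, fun i hi x hx y hy => ?_⟩
      rcases (Nat.lt_succ_iff.1 hi).lt_or_eq with h | rfl
      · exact k5 i h x (l1 hx) y (l2 hy)
      · exact l5 x hx y hy
  have h2 : ∀ (n : ℕ) (Q : Set V), ∃ W : Bool → Set V, MeasurableSet Q ∧ μ Q ≠ 0 →
      (∀ b, W b ⊆ Q ∧ IsCompact (W b) ∧ μ (W b) ≠ 0) ∧
      ∀ i < n, ∀ x ∈ W false, ∀ y ∈ W true, φ i x ≠ φ i y := by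
    intro n Q
    by_cases hQ : MeasurableSet Q ∧ μ Q ≠ 0
    · obtain ⟨Q', k1, R', k2, k3, k4, k5⟩ := h1 n Q hQ
      obtain ⟨K, l1, l2, l3⟩ := k3.1.exists_lt_isCompact_of_ne_top (measure_ne_top μ _) k3.2.bot_lt
      obtain ⟨L, l4, l5, l6⟩ := k4.1.exists_lt_isCompact_of_ne_top (measure_ne_top μ _) k4.2.bot_lt
      refine ⟨fun b => if b then L else K, fun _ => ⟨fun b => ?_,
        fun i hi x hx y hy => k5 i hi x (l1 hx) y (l4 hy)⟩⟩
      cases b
      · exact ⟨l1.trans k1, l2, l3.ne'⟩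
      · exact ⟨l4.trans k2, l5, l6.ne'⟩
    · exact ⟨fun _ => Q, fun h => absurd h hQ⟩
  choose W hW using h2
  let U : (ℕ → Bool) → ℕ → Set V := fun b n => Nat.rec Q (fun m S => W m S (b m)) n
  have hU : ∀ b n, MeasurableSet (U b n) ∧ μ (U b n) ≠ 0 := by
    intro b n
    induction n with
    | zero => exact hQ
    | succ n ih =>
      have := (hW n _ ih).1 (b n)
      exact ⟨this.2.1.isClosed.measurableSet, this.2.2⟩
  have h3 : ∀ b, (⋂ n, U b (n + 1)).Nonempty := fun b =>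
    IsCompact.nonempty_iInter_of_sequence_nonempty_isCompact_isClosed _
      (fun n => ((hW _ _ (hU b (n + 1))).1 _).1)
      (fun n => nonempty_of_measure_ne_zero (hU b (n + 1)).2)
      ((hW _ _ (hU b 0)).1 _).2.1 fun n => ((hW _ _ (hU b n)).1 _).2.1.isClosed
  choose p hp using h3
  have hp' : ∀ b n, p b ∈ W n (U b n) (b n) := fun b n => mem_iInter.1 (hp b) n
  have h4 : ∀ i b b', (∀ n ≤ i, b n = b' n) → φ i (p b) = φ i (p b') → b = b' := by
    intro i b b' hb he
    by_contra hne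
    have hex : ∃ n, b n ≠ b' n := Function.ne_iff.1 hne
    have h3 : ∀ n ≤ Nat.find hex, U b n = U b' n := by
      intro n hn
      induction n with
      | zero => rfl
      | succ n ih =>
        change W n (U b n) (b n) = W n (U b' n) (b' n)
        rw [ih (Nat.le_of_succ_le hn), not_not.1 (Nat.find_min hex hn)]
    have h4 := hp' b (Nat.find hex)
    have h5 := hp' b' (Nat.find hex)
    rw [← h3 _ le_rfl] at h5
    have h7 := Nat.find_spec hex
    have h6 := (hW (Nat.find hex) _ (hU b (Nat.find hex))).2 i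
      (not_le.1 fun h => h7 (hb _ h))
    cases hb1 : b (Nat.find hex) <;> cases hb2 : b' (Nat.find hex) <;>
      rw [hb1] at h4 h7 <;> rw [hb2] at h5 h7
    · exact h7 rfl
    · exact h6 _ h4 _ h5 he
    · exact h6 _ h5 _ h4 he.symm
    · exact h7 rfl
  by_contra hc
  push Not at hc
  choose i hi using fun b => hc (p b) (((hW _ _ (hU b 0)).1 _).1 (hp' b 0))
  have h5 : #(ℕ → Bool) ≤ #(List Bool × B) := by
    refine mk_le_of_injective (f := fun b => ((List.range (i b + 1)).map b, ⟨_, hi b⟩))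
      fun b b' h => ?_
    simp only [Prod.mk.injEq, Subtype.mk.injEq] at h
    have h6 : i b = i b' := by simpa using congrArg List.length h.1
    rw [← h6] at h
    refine h4 (i b) b b' (fun n hn => ?_) h.2
    exact List.map_inj_left.1 h.1 n (List.mem_range.2 (Nat.lt_succ_of_le hn))
  have h6 : #(List Bool × B) < 𝔠 := by
    rw [mk_prod, lift_id, lift_id]
    exact mul_lt_of_lt aleph0_le_continuum (mk_le_aleph0.trans_lt aleph0_lt_continuum) hB
  have h7 := h5.trans_lt h6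
  simp at h7

theorem piece (f : V → V) (A U : Set V) (hA : MeasurableSet A) (hf : Measurable f)
    (hi : InjOn f A) (hU : MapsTo f A U) (C : Set V) (hC : C.Countable) :
    μ (A ∩ {x | f x + x ∈ C}) ≤ μ U := by
  have hm : ∀ g, MeasurableSet (A ∩ {x | f x + x = g}) := fun g =>
    hA.inter ((hf.add measurable_id) (measurableSet_singleton g))
  have := hC.to_subtype
  have h1 : A ∩ {x | f x + x ∈ C} = ⋃ g : C, A ∩ {x | f x + x = g} := by
    ext x
    simp
  have h2 : ∀ g x, x ∈ (fun y => g + y) ⁻¹' (A ∩ {x | f x + x = g}) →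
      ∃ z ∈ A, f z + z = g ∧ f z = x := by
    intro g x hx
    refine ⟨g + x, hx.1, hx.2, ?_⟩
    have h3 : f (g + x) + (g + x) + (g + x) = g + (g + x) := congrArg (· + (g + x)) hx.2
    rwa [add_assoc, two, add_zero, ← add_assoc, two, zero_add] at h3
  rw [h1]
  refine (measure_iUnion_le _).trans ?_
  have h4 : ∀ g : C, μ (A ∩ {x | f x + x = g}) =
      μ ((fun y => g.1 + y) ⁻¹' (A ∩ {x | f x + x = g})) := fun g =>
    (measure_preimage_add μ g.1 _).symm
  simp only [h4]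
  rw [← measure_iUnion]
  · refine measure_mono (iUnion_subset fun g x hx => ?_)
    obtain ⟨z, hz, -, rfl⟩ := h2 _ x hx
    exact hU hz
  · intro g g' hg
    rw [Function.onFun, Set.disjoint_left]
    intro x hx hx'
    obtain ⟨z, k1, k2, k3⟩ := h2 _ x hx
    obtain ⟨z', k4, k5, k6⟩ := h2 _ x hx'
    obtain rfl := hi k1 k4 (k3.trans k6.symm)
    exact hg (Subtype.ext (k2.symm.trans k5))
  · exact fun g => (measurable_const_add g.1) (hm g)

theorem card_meas : #{s : Set V | MeasurableSet s} ≤ 𝔠 := by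
  obtain ⟨b, hb, he⟩ := (inferInstance : MeasurableSpace.CountablyGenerated V).isCountablyGenerated
  have := MeasurableSpace.cardinal_measurableSet_le_continuum (s := b)
    ((le_aleph0_iff_set_countable.2 hb).trans aleph0_le_continuum)
  rwa [← he] at this

theorem card_fun : #{f : V → V | Measurable f} ≤ 𝔠 := by
  refine le_trans (mk_le_of_injective (β := ℕ → {s : Set V | MeasurableSet s})
    (f := fun f n => ⟨{x | f.1 x n = 1},
      ((measurable_pi_apply n).comp f.2) (measurableSet_singleton 1)⟩) fun f g h => ?_) ?_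
  · refine Subtype.ext (funext fun x => funext fun n => ?_)
    have h1 : f.1 x n = 1 ↔ g.1 x n = 1 := Set.ext_iff.1 (congrArg Subtype.val (congrFun h n)) x
    by_cases h2 : f.1 x n = 1
    · rw [h2, h1.1 h2]
    · rw [z01 _ h2, z01 _ fun h => h2 (h1.2 h)]
  · rw [← power_def, mk_nat]
    exact (power_le_power_right card_meas).trans continuum_power_aleph0.le

theorem extend (Y : Set V) (h : Y → V) (hh : Continuous h) :
    ∃ f : V → V, Measurable f ∧ ∀ y : Y, f y = h y := by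
  obtain ⟨f, h1, h2⟩ := Measurable.exists_eq_measurable_comp (f := (Subtype.val : Y → V))
    (g := h) hh.measurable
  exact ⟨f, h1, fun y => (congrFun h2 y).symm⟩

theorem null1 (y : V) : μ {y} = 0 := by
  have : (𝓝[≠] (0 : V)).NeBot := by
    rw [← mem_closure_iff_nhdsWithin_neBot, closure_compl, int_single]
    simp
  exact measure_singleton y

theorem small_nhd (y : V) (k : ℕ) : ∃ U : Set V, IsClopen U ∧ y ∈ U ∧ μ U < (k : ENNReal)⁻¹ := by
  have h0 := null1 y
  obtain ⟨U, h1, h2, h3⟩ := exists_isOpen_lt_of_lt (μ := μ) {y} (k : ENNReal)⁻¹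
    (by rw [h0]; simp)
  obtain ⟨W, h4, h5, h6⟩ := isTopologicalBasis_isClopen.exists_subset_of_mem_open (h1 rfl) h2
  exact ⟨W, h4, h5, (measure_mono h6).trans_lt h3⟩

end Pool.Agent.H.MP_999952_gt
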