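import Mathlib
import Pool.Agent.H.MP_999952_gt.A

set_option autoImplicit false

namespace Pool.Agent.H.MP_999952_gt

open Set Filter Topology Cardinal MeasureTheory Pool.Agent.H.MP_5382b1_gt

theorem build2 {ι : Type} (hι : #ι ≤ 𝔠) [Nonempty ι] (Γ : ι → Set (V × Set V))
    (hΓ : ∀ i, ∀ p ∈ Γ i, p.2.Countable)
    (hb : ∀ i (B : Set V), #B < 𝔠 → ∃ p ∈ Γ i, p.1 ∉ B ∧ ∀ y ∈ p.2, y ∉ B ∧ y + p.1 ∉ B) :
    ∃ H : AddSubmonoid V, ∀ i, ∃ p ∈ Γ i, p.1 ∈ H ∧ ∀ y ∈ p.2, y ∉ H := by
  classical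
  let I := (𝔠 : Cardinal.{0}).ord.ToType
  have hI : #I = 𝔠 := mk_ord_toType _
  obtain ⟨j⟩ := (Cardinal.le_def _ _).1 (hι.trans hI.ge)
  let e := Function.invFun j
  have he : ∀ i, e (j i) = i := Function.leftInverse_invFun j.injective
  let X : (I → V × Set V) → Set I → AddSubmonoid V := fun f J =>
    AddSubmonoid.closure ((fun u => (f u).1) '' J)
  let Y : (I → V × Set V) → Set I → Set V := fun f J => ⋃ u ∈ J, (f u).2
  obtain ⟨f, hf⟩ := Pool.Agent.H.MP_c74059_gt.wf_choice (I := I) (A := V × Set V)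
    (fun t f p => p ∈ Γ (e t) ∧ (∀ h ∈ X f (Iio t), h + p.1 ∉ Y f (Iio t)) ∧
      ∀ y ∈ p.2, y ∉ X f (Iio t) ∧ y + p.1 ∉ X f (Iio t))
    (fun t f g a h hP => by
      have e1 : X f (Iio t) = X g (Iio t) :=
        congrArg AddSubmonoid.closure (image_congr fun u hu => congrArg Prod.fst (h u hu))
      have e2 : Y f (Iio t) = Y g (Iio t) := iUnion₂_congr fun u hu => by rw [h u hu]
      rwa [← e1, ← e2])
    (fun t f ih => by
      have hlt : #(Iio t) < 𝔠 := by
        have := mk_Iio_lt t (by rw [hI]; simp [I])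
        rwa [hI] at this
      have c2 : #(X f (Iio t)) < 𝔠 :=
        (card_cl _).trans_lt (max_lt aleph0_lt_continuum (mk_image_le.trans_lt hlt))
      have c3 : #(Y f (Iio t)) < 𝔠 := by
        refine (mk_biUnion_le _ _).trans_lt (mul_lt_of_lt aleph0_le_continuum hlt ?_)
        refine lt_of_le_of_lt (ciSup_le' fun u => ?_) aleph0_lt_continuum
        exact le_aleph0_iff_set_countable.2 (hΓ _ _ (ih u.1 u.2).1)
      obtain ⟨p, k1, k2, k3⟩ := hb (e t) (image2 (· + ·) (X f (Iio t) : Set V) (Y f (Iio t)) ∪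
        X f (Iio t)) ((mk_union_le _ _).trans_lt (add_lt_of_lt aleph0_le_continuum
          (mk_image2_le.trans_lt (mul_lt_of_lt aleph0_le_continuum c2 c3)) c2))
      refine ⟨p, k1, fun h hh h' => k2 (Or.inl ⟨h, hh, _, h', ?_⟩),
        fun y hy => ⟨fun h => (k3 y hy).1 (Or.inr h), fun h => (k3 y hy).2 (Or.inr h)⟩⟩
      simp only [← add_assoc, two, zero_add])
  have mx : ∀ J J', J ⊆ J' → X f J ≤ X f J' :=
    fun J J' h => AddSubmonoid.closure_mono (image_mono h)
  have my : ∀ J J', J ⊆ J' → Y f J ⊆ Y f J' := fun J J' h => biUnion_subset_biUnion_left h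
  have h1 : ∀ T : Finset I, ∀ z ∈ X f T, z ∉ Y f T := by
    intro T
    induction T using Finset.induction_on_max with
    | empty => simp [Y]
    | insert a T ha ih =>
      have hT : (T : Set I) ⊆ Iio a := fun u hu => ha u hu
      intro z hz hz'
      obtain ⟨-, k1, k2⟩ := hf a
      simp only [X, Y, Finset.coe_insert, image_insert_eq, biUnion_insert] at hz hz'
      rcases cl_insert hz with h4 | h4 <;> rcases hz' with h3 | h3
      · exact (k2 z h3).1 (mx _ _ hT h4)
      · exact ih z h4 h3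
      · exact (k2 z h3).2 (mx _ _ hT h4)
      · refine k1 _ (mx _ _ hT h4) ?_
        rw [add_assoc, two, add_zero]
        exact my _ _ hT h3
  have h2 : ∀ z ∈ X f univ, ∃ T : Finset I, z ∈ X f T := by
    intro z hz
    induction hz using AddSubmonoid.closure_induction with
    | mem x hx =>
      obtain ⟨u, -, hx⟩ := hx
      exact ⟨{u}, AddSubmonoid.subset_closure ⟨u, by simp, hx⟩⟩
    | zero => exact ⟨∅, zero_mem _⟩
    | add a b _ _ ha hb =>
      obtain ⟨S, hS⟩ := ha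
      obtain ⟨T, hT⟩ := hb
      exact ⟨S ∪ T, add_mem (mx _ _ (by simp) hS) (mx _ _ (by simp) hT)⟩
  refine ⟨X f univ, fun i => ⟨f (j i), by simpa only [he] using (hf (j i)).1,
    AddSubmonoid.subset_closure ⟨_, trivial, rfl⟩, fun y hy h => ?_⟩⟩
  obtain ⟨T, hT⟩ := h2 _ h
  exact h1 (insert (j i) T) _ (mx _ _ (by simp) hT) (mem_iUnion₂.2 ⟨j i, by simp, hy⟩)

theorem core2 : ∃ H : AddSubmonoid V, ∀ (f : ℕ → V → V) (A U : ℕ → Set V) (n k : ℕ → ℕ),
    (∀ i, Measurable (f i)) → (∀ i, MeasurableSet (A i)) → (∀ i, InjOn (f i) (A i)) →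
    (∀ i, MapsTo (f i) (A i) (U i)) → (∀ i, μ (U i) < (k i : ENNReal)⁻¹) →
    (∀ a b, ∃ i, n i = a ∧ k i = b) →
    ∃ x ∈ H, ∀ a, ∃ i, n i = a ∧ (x ∈ A i → f i x ∉ H) := by
  classical
  let ι := {q : (ℕ → {f : V → V | Measurable f}) × (ℕ → {s : Set V | MeasurableSet s}) ×
      {s : Set V | MeasurableSet s} // μ q.2.2.1 ≠ 0 ∧ ∀ i y,
      μ ((q.2.1 i).1 ∩ {x | (q.1 i).1 x = y}) = 0 ∧ μ ((q.2.1 i).1 ∩ {x | (q.1 i).1 x + x = y}) = 0}
  have : Nonempty ι := ⟨⟨(fun _ => ⟨id, measurable_id⟩, fun _ => ⟨∅, by simp⟩,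
    ⟨univ, by simp⟩), by simp, by simp⟩⟩
  have hι : #ι ≤ 𝔠 := by
    refine (mk_subtype_le _).trans ?_
    simp only [mk_prod, lift_id, ← power_def, mk_nat]
    refine (mul_le_mul' (power_le_power_right card_fun)
      (mul_le_mul' (power_le_power_right card_meas) card_meas)).trans ?_
    simp
  obtain ⟨H, hH⟩ := build2 hι (fun q => {p | p.1 ∈ q.1.2.2.1 ∧
      p.2 = (fun i => (q.1.1 i).1 p.1) '' {i | p.1 ∈ (q.1.2.1 i).1}})
    (fun q p hp => hp.2 ▸ (to_countable _).image _) (by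
      rintro ⟨⟨f, S, Q⟩, hQ, h0⟩ B hB
      have h1 : ∀ (i : ℕ) (g : V → V), (∀ y, μ ((S i).1 ∩ {x | g x = y}) = 0) →
          ∀ y, μ ((S i).1.piecewise g id ⁻¹' {y}) = 0 := by
        intro i g hg y
        refine measure_mono_null (fun x hx => ?_) (measure_union_null (hg y) (null1 y))
        by_cases h : x ∈ (S i).1
        · exact Or.inl ⟨h, by simpa [h] using hx⟩
        · exact Or.inr (by simpa [h] using hx)
      obtain ⟨x, hx, h2⟩ := avoid (fun m => Nat.casesOn m id fun m =>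
          (S (m / 2)).1.piecewise (if m % 2 = 0 then (f (m / 2)).1 else fun x => (f (m / 2)).1 x + x) id)
        (fun m => by
          cases m with
          | zero => exact measurable_id
          | succ m =>
            refine Measurable.piecewise (S _).2 ?_ measurable_id
            split_ifs
            · exact (f _).2
            · exact (f _).2.add measurable_id)
        (fun m => by
          cases m with
          | zero => exact null1
          | succ m =>
            refine h1 _ _ fun y => ?_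
            split_ifs
            · exact (h0 _ y).1
            · exact (h0 _ y).2) Q.1 ⟨Q.2, hQ⟩ B hB
      refine ⟨(x, (fun i => (f i).1 x) '' {i | x ∈ (S i).1}), ⟨hx, rfl⟩, h2 0, ?_⟩
      rintro _ ⟨i, hi, rfl⟩
      have h3 := h2 (2 * i + 1)
      have h4 := h2 (2 * i + 1 + 1)
      have e1 : 2 * i / 2 = i := by omega
      have e2 : (2 * i + 1) / 2 = i := by omega
      have e3 : (2 * i + 1) % 2 ≠ 0 := by omega
      have hi' : x ∈ (S i).1 := hi
      simp only [e1, Nat.mul_mod_right, if_true] at h3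
      simp only [e2, if_neg e3] at h4
      rw [piecewise_eq_of_mem _ _ _ hi'] at h3 h4
      exact ⟨h3, h4⟩)
  refine ⟨H, fun f A U n k hf hA hi hU hk hs => ?_⟩
  let C : ℕ → Set V := fun i => {c | 0 < μ.restrict (A i) {x | f i x + x = c}}
  have hC : ∀ i, (C i).Countable := fun i =>
    Measure.countable_meas_level_set_pos ((hf i).add measurable_id)
  let T : ℕ → Set V := fun i => A i ∩ {x | f i x + x ∈ C i}
  have hT : ∀ i, MeasurableSet (T i) := fun i =>
    (hA i).inter (((hf i).add measurable_id) (hC i).measurableSet)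
  let N : Set V := ⋃ a, ⋂ i, ⋂ _ : n i = a, T i
  have hN : MeasurableSet N := MeasurableSet.iUnion fun a => MeasurableSet.iInter fun i =>
    MeasurableSet.iInter fun _ => hT i
  have hN0 : μ N = 0 := measure_iUnion_null fun a => by
    by_contra h
    obtain ⟨b, hb⟩ := ENNReal.exists_inv_nat_lt h
    obtain ⟨i, h1, h2⟩ := hs a b
    refine hb.not_ge ((measure_mono (iInter₂_subset i h1)).trans ?_)
    exact ((piece _ _ _ (hA i) (hf i) (hi i) (hU i) _ (hC i)).trans (h2 ▸ hk i).le)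
  have k1 : ∀ i y, μ ((A i \ T i) ∩ {x | f i x = y}) = 0 := fun i y => by
    refine Set.Subsingleton.induction_on (p := fun s => μ s = 0) (fun x hx z hz => ?_)
      measure_empty null1
    exact hi i hx.1.1 hz.1.1 (hx.2.trans hz.2.symm)
  have k2 : ∀ i y, μ ((A i \ T i) ∩ {x | f i x + x = y}) = 0 := fun i y => by
    by_cases h : y ∈ C i
    · refine measure_mono_null (fun x hx => ?_) measure_empty
      have h1 : f i x + x = y := hx.2
      exact (hx.1.2 ⟨hx.1.1, by rw [mem_ofPred_eq, h1]; exact h⟩).elim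
    · have h1 : μ.restrict (A i) {x | f i x + x = y} = 0 := le_zero_iff.1 (not_lt.1 h)
      rw [Measure.restrict_apply' (hA i)] at h1
      exact measure_mono_null (fun x hx => And.intro hx.2 hx.1.1) h1
  obtain ⟨⟨x, Z⟩, ⟨h1, hZ⟩, h2, h3⟩ := hH ⟨(fun i => ⟨f i, hf i⟩,
    fun i => ⟨A i \ T i, (hA i).diff (hT i)⟩, ⟨Nᶜ, hN.compl⟩),
    by simp [prob_compl_eq_zero_iff hN, hN0], fun i y => ⟨k1 i y, k2 i y⟩⟩
  refine ⟨x, h2, fun a => ?_⟩
  simp only [N, mem_compl_iff, mem_iUnion, mem_iInter, not_exists, not_forall] at h1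
  obtain ⟨i, h4, h5⟩ := h1 a
  refine ⟨i, h4, fun h => h3 _ ?_⟩
  rw [hZ]
  exact ⟨i, ⟨h, h5⟩, rfl⟩

end Pool.Agent.H.MP_999952_gt
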